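import Pool.Agent.Lib.MP_582a01_gt.Exists
import Pool.Agent.Lib.MP_582a01_gt.Quad
import Pool.Agent.Lib.MP_582a01_gt.Deg

/-!
# Q2: integrals of even degree do not force quadratic integrals

There is a smooth metric on the 2-torus such that for every even `d ≥ 6` its geodesic flow has an
integral of exact degree `d` which is not a polynomial in the energy `H`, while every homogeneous
quadratic integral is a constant multiple of `H`.
-/

set_option autoImplicit false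
open scoped ContDiff

namespace Pool.Agent.Results.MP_582a01_gt.QuadraticFails

/-- There are a smooth `ℤ²`-periodic metric `g` on the plane, with energy
`H(x,p) = (1/2) pᵀ g(x)⁻¹ p`, such that
(1) for every even `d ≥ 6` there is an integral `F` of the geodesic flow, polynomial of exact
degree `d` in the momenta with smooth periodic coefficients, which is not a polynomial in `H`;
(2) every integral `K(x,p) = ∑ᵢⱼ kᵢⱼ(x) pᵢ pⱼ` with smooth periodic coefficients is a constant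
multiple of `H`. -/
theorem result : ∃ g : (Fin 2 → ℝ) → Fin 2 → Fin 2 → ℝ,
    (∀ i j, ContDiff ℝ ∞ (fun x => g x i j)) ∧
    (∀ x, (Matrix.of (g x)).PosDef) ∧
    (∀ (x : Fin 2 → ℝ) (v : Fin 2 → ℤ), g (x + (fun k => (v k : ℝ))) = g x) ∧
    ∃ H : (Fin 2 → ℝ) → (Fin 2 → ℝ) → ℝ,
    (∀ x p, H x p = (1 / 2 : ℝ) * dotProduct p ((Matrix.of (g x))⁻¹.mulVec p)) ∧
    (∀ d : ℕ, Even d → 6 ≤ d →
      ∃ (a : ℕ → ℕ → (Fin 2 → ℝ) → ℝ) (F : (Fin 2 → ℝ) → (Fin 2 → ℝ) → ℝ),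
        (∀ x p, F x p = ∑ i ∈ Finset.range (d + 1), ∑ j ∈ Finset.range (d + 1 - i),
            a i j x * p 0 ^ i * p 1 ^ j) ∧
        (∀ i j, ContDiff ℝ ∞ (a i j)) ∧
        (∀ i j (x : Fin 2 → ℝ) (v : Fin 2 → ℤ), a i j (x + (fun k => (v k : ℝ))) = a i j x) ∧
        (∃ i j x, i + j = d ∧ a i j x ≠ 0) ∧
        (∀ x p : Fin 2 → ℝ,
          ∑ k : Fin 2,
            (fderiv ℝ (fun y => F y p) x (Pi.single k (1 : ℝ))
                * fderiv ℝ (fun q => H x q) p (Pi.single k (1 : ℝ))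
              - fderiv ℝ (fun q => F x q) p (Pi.single k (1 : ℝ))
                * fderiv ℝ (fun y => H y p) x (Pi.single k (1 : ℝ))) = 0) ∧
        ¬ ∃ q : Polynomial ℝ, ∀ x p, F x p = q.eval (H x p)) ∧
    (∀ k : Fin 2 → Fin 2 → (Fin 2 → ℝ) → ℝ,
      (∀ i j, ContDiff ℝ ∞ (k i j)) →
      (∀ i j (x : Fin 2 → ℝ) (v : Fin 2 → ℤ), k i j (x + (fun l => (v l : ℝ))) = k i j x) →
      (∀ x p : Fin 2 → ℝ,
        ∑ l : Fin 2,
          (fderiv ℝ (fun y => ∑ i : Fin 2, ∑ j : Fin 2, k i j y * p i * p j) x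
                (Pi.single l (1 : ℝ))
              * fderiv ℝ (fun q => H x q) p (Pi.single l (1 : ℝ))
            - fderiv ℝ (fun q : Fin 2 → ℝ => ∑ i : Fin 2, ∑ j : Fin 2, k i j x * q i * q j) p
                (Pi.single l (1 : ℝ))
              * fderiv ℝ (fun y => H y p) x (Pi.single l (1 : ℝ))) = 0) →
      ∃ c : ℝ, ∀ x p : Fin 2 → ℝ,
        ∑ i : Fin 2, ∑ j : Fin 2, k i j x * p i * p j = c * H x p) := by
  obtain ⟨Lam, A, B, hG⟩ := Cub.exists_global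
  have hper : ∀ (x : Fin 2 → ℝ) (v : Fin 2 → ℤ),
      Lam ((x + fun k => (v k : ℝ)) 0, (x + fun k => (v k : ℝ)) 1) = Lam (x 0, x 1) ∧
      A ((x + fun k => (v k : ℝ)) 0, (x + fun k => (v k : ℝ)) 1) = A (x 0, x 1) ∧
      B ((x + fun k => (v k : ℝ)) 0, (x + fun k => (v k : ℝ)) 1) = B (x 0, x 1) := by
    intro x v
    exact Cub.per_int hG (x 0) (x 1) (v 0) (v 1)
  have hsm : ∀ f : ℝ × ℝ → ℝ, ContDiff ℝ ∞ f →
      ContDiff ℝ ∞ (fun x : Fin 2 → ℝ => f (x 0, x 1)) := by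
    intro f hf
    exact hf.comp ((contDiff_apply ℝ ℝ (0 : Fin 2)).prodMk (contDiff_apply ℝ ℝ (1 : Fin 2)))
  have hne : ∀ x : Fin 2 → ℝ, Lam (x 0, x 1) ≠ 0 := fun x => (hG.pos _).ne'
  have hSL : Cub.SP (fun x => 1 / (2 * Lam (x 0, x 1))) :=
    ⟨contDiff_const.div (contDiff_const.mul (hsm Lam hG.smoothL))
      (fun x => mul_ne_zero two_ne_zero (hne x)), fun x v => by simp only [(hper x v).1]⟩
  have hSA : Cub.SP (fun x => A (x 0, x 1)) := ⟨hsm A hG.smoothA, fun x v => (hper x v).2.1⟩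
  have hSB : Cub.SP (fun x => B (x 0, x 1)) := ⟨hsm B hG.smoothB, fun x v => (hper x v).2.2⟩
  refine ⟨Cub.gM Lam, fun i j => (hsm Lam hG.smoothL).mul contDiff_const,
    fun x => Cub.gM_posDef hG.pos x, ?_, Cub.HN Lam, fun x p => (Cub.H_eq hG.pos x p).symm, ?_, ?_⟩
  · intro x v
    funext i j
    unfold Cub.gM
    rw [(hper x v).1]
  · intro d hd h6
    obtain ⟨m, hm⟩ := hd
    obtain ⟨n, rfl⟩ : ∃ n, d = 2 * n + 6 := ⟨m - 3, by omega⟩
    obtain ⟨-, hF, hPB⟩ := Cub.powers hG hSL hSA hSB n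
    obtain ⟨z, hA, hB⟩ := hG.flat
    have hL := hG.pos (z.1, z.2)
    have hFne : Cub.FM Lam A B ![z.1, z.2] ![2, 1] ^ 2 * Cub.HN Lam ![z.1, z.2] ![2, 1] ^ n ≠ 0 := by
      apply mul_ne_zero
      · apply pow_ne_zero
        simp [Cub.FM, hA, hB]
        norm_num
      · apply pow_ne_zero
        simp only [Cub.HN, Cub.N2, Matrix.cons_val_zero, Matrix.cons_val_one]
        apply div_ne_zero
        · norm_num
        · exact mul_ne_zero two_ne_zero hL.ne'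
    obtain ⟨a, h1, h2, h3, h4⟩ := hF.frozen ⟨![z.1, z.2], ![2, 1], hFne⟩
    refine ⟨a, _, h1, h2, h3, h4, hPB, ?_⟩
    rintro ⟨q, hq⟩
    have e1 := hq ![z.1, z.2] ![2, 1]
    have e2 := hq ![z.1, z.2] ![√3, 0]
    have e3 : Cub.HN Lam ![z.1, z.2] ![√3, 0] = Cub.HN Lam ![z.1, z.2] ![2, 1] := by
      simp only [Cub.HN, Cub.N2, Matrix.cons_val_zero, Matrix.cons_val_one]
      rw [Real.sq_sqrt (by norm_num)]
      norm_num
    have e4 : Cub.FM Lam A B ![z.1, z.2] ![√3, 0] = 0 := by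
      simp [Cub.FM, hA, hB]
    rw [e3, ← e1, e4] at e2
    apply hFne
    rw [← e2]
    ring
  · intro k hk hkp hK
    exact Cub.no_quadratic hG hk hkp hK

end Pool.Agent.Results.MP_582a01_gt.QuadraticFails
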